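import Pool.Agent.Lib.MP_9f6534_gt.Annulus

open Real Pool.MP9f6534

namespace Pool.Agent.Results.MP_9f6534_gt.AreaModulus

/-- A sharp lower bound of the area of a free boundary minimal annulus by its conformal modulus
and its centre. For every immersed free boundary minimal annulus `X` of half length `s > 0` with
centre `c` one has `area ≥ (1 - |c|²) π (sinh 2s + 2s) / (cosh² s + s²)`. The critical catenoid
has centre `0` and attains equality. -/
theorem result :
    (∀ (s : ℝ) (X : ℝ → ℝ → E3), IsFreeBoundaryMinimalAnnulus s X →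
      (1 - ‖centre s X‖ ^ 2) * (π * ((sinh (2 * s) + 2 * s) / (cosh s ^ 2 + s ^ 2))) ≤
        area s X) ∧
    ∃ k : ℝ, 0 < k ∧ k * tanh k = 1 ∧ IsFreeBoundaryMinimalAnnulus k (catenoid k) ∧
      centre k (catenoid k) = 0 ∧
      area k (catenoid k) = π * ((sinh (2 * k) + 2 * k) / (cosh k ^ 2 + k ^ 2)) := by
  refine ⟨fun s X h => area_ge h, ?_⟩
  obtain ⟨k, hk1, -, hk⟩ := exists_root
  have hk0 : 0 < k := by linarith
  refine ⟨k, hk0, ?_, catenoid_isFBMA hk0 hk, centre_catenoid k, ?_⟩
  · rw [tanh_eq_sinh_div_cosh, ← mul_div_assoc, hk, div_self (cosh_pos k).ne']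
  · have h2 : π * phi k = 2 * π / k := by rw [phi_root hk0 hk]; ring
    rw [area_catenoid hk0 hk, ← h2]
    rfl

end Pool.Agent.Results.MP_9f6534_gt.AreaModulus
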