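import Pool.Agent.Lib.MP_9f6534_gt.Annulus

open Real Pool.MP9f6534

namespace Pool.Agent.Results.MP_9f6534_gt.LongAnnuli

/-- Free boundary minimal annuli of large conformal modulus. Let `k` be the positive solution of
`k tanh k = 1`; the critical catenoid is the embedded free boundary minimal annulus `catenoid k`,
of half length `k`. Let `X` be any immersed free boundary minimal annulus of half length `s ≥ k`
(so its conformal modulus is at least the one of the critical catenoid), and let `c` be its
centre. Suppose that `|c| ≤ 1/4`, or that `s ≥ 2` and `4 s² ≤ (1 - |c|²) (cosh² s + s²)`, or that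
both boundary circles of `X` are longer than `2π √(1 - 1/k²)`. Then each boundary circle of `X` is
at least as long as a boundary circle of the critical catenoid, and the area of `X` is at least
the area of the critical catenoid, with strict inequality if `s > k` or `c ≠ 0`. -/
theorem result :
    ∃ k : ℝ, 0 < k ∧ k * tanh k = 1 ∧
      IsFreeBoundaryMinimalAnnulus k (catenoid k) ∧ IsEmbedded k (catenoid k) ∧
      ∀ (s : ℝ) (X : ℝ → ℝ → E3), IsFreeBoundaryMinimalAnnulus s X → k ≤ s →
        (‖centre s X‖ ≤ 1 / 4 ∨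
          (2 ≤ s ∧ 4 * s ^ 2 ≤ (1 - ‖centre s X‖ ^ 2) * (cosh s ^ 2 + s ^ 2)) ∨
          (2 * π * √(1 - 1 / k ^ 2) < circleLength s X ∧
            2 * π * √(1 - 1 / k ^ 2) < circleLength (-s) X)) →
        circleLength k (catenoid k) ≤ circleLength s X ∧
        circleLength k (catenoid k) ≤ circleLength (-s) X ∧
        area k (catenoid k) ≤ area s X ∧
        (k < s ∨ centre s X ≠ 0 → area k (catenoid k) < area s X) := by
  obtain ⟨k, hk1, -, hk⟩ := exists_root
  have hk0 : 0 < k := by linarith
  have hk2 := root_le hk0 hk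
  have hA := area_catenoid hk0 hk
  have hpi := pi_pos
  have hL : circleLength k (catenoid k) = 2 * π * (1 / k) := by
    unfold circleLength
    simp_rw [norm_dθ_catenoid hk0]
    rw [intervalIntegral.integral_const, smul_eq_mul, sub_zero]
    have := cosh_pos k
    field_simp
  refine ⟨k, hk0, ?_, catenoid_isFBMA hk0 hk, catenoid_embedded hk0, ?_⟩
  · rw [tanh_eq_sinh_div_cosh, ← mul_div_assoc, hk, div_self (cosh_pos k).ne']
  · intro s X h hks hor
    obtain ⟨c1, c2⟩ := main_len h hk0 hk hks hor
    obtain ⟨l1, w1⟩ := len_bound h (t := s) (Or.inl rfl)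
    obtain ⟨l2, w2⟩ := len_bound h (t := -s) (Or.inr rfl)
    obtain ⟨hb, hb'⟩ := BB_le h hk0 hk hks
    obtain ⟨a1, a1'⟩ := large_branch hk1 hk2 hb w1 c1 l1
    obtain ⟨a2, a2'⟩ := large_branch hk1 hk2 hb w2 c2 l2
    rw [hL, circle_len h (Or.inl rfl), circle_len h (Or.inr rfl), area_eq h, hA]
    have e : 2 * π / k = π * (1 / k + 1 / k) := by ring
    rw [e]
    refine ⟨mul_le_mul_of_nonneg_left a1 (by positivity),
      mul_le_mul_of_nonneg_left a2 (by positivity),
      mul_le_mul_of_nonneg_left (by linarith) hpi.le, fun hor' => ?_⟩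
    exact mul_lt_mul_of_pos_left (add_lt_add (a1' (hb' hor')) (a2' (hb' hor'))) hpi

end Pool.Agent.Results.MP_9f6534_gt.LongAnnuli
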